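import Pool.Agent.L7h26.TN.Stm

/-!
# Project TN, local results (helper84)
-/

set_option autoImplicit false

namespace Pool.Agent.L7h84.TN

open Polynomial
open Pool.Agent.L7h26.TN

theorem deg_le (n : ℕ) : (S n).natDegree ≤ n + 1 := by
  unfold S
  refine (natDegree_sub_le _ _).trans (max_le ?_ ?_)
  · refine (natDegree_mul_le).trans ?_
    rw [natDegree_C, zero_add]
    refine (natDegree_sub_le _ _).trans (max_le ?_ ?_)
    · exact natDegree_X_pow_le _
    · simp
  · refine (natDegree_mul_le).trans ?_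
    rw [natDegree_C, zero_add]
    refine (natDegree_sub_le _ _).trans (max_le ?_ ?_)
    · exact (natDegree_X_pow_le _).trans (Nat.le_succ n)
    · exact (natDegree_X_le).trans (by omega)

theorem nd_cube {R : Type*} [CommRing R] [IsDomain R] : ((X - 1 : R[X]) ^ 3).natDegree = 3 := by
  rw [natDegree_pow, show (X - 1 : R[X]) = X - C 1 by rw [C_1], natDegree_X_sub_C]

theorem cube_ne {R : Type*} [CommRing R] [IsDomain R] : ((X - 1 : R[X]) ^ 3) ≠ 0 := by
  apply pow_ne_zero
  rw [show (X - 1 : R[X]) = X - C 1 by rw [C_1]]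
  exact X_sub_C_ne_zero 1

theorem red_eq {p n : ℕ} {g h : ℤ[X]} (e : (X - 1) ^ 3 * (g * h) = S n) :
    (X - 1 : (ZMod p)[X]) ^ 3 * (red p g * red p h) = red p (S n) := by
  rw [← e]
  unfold red
  simp [Polynomial.map_mul, Polynomial.map_pow, Polynomial.map_sub]

theorem deg_red {p n : ℕ} [Fact p.Prime] {g h : ℤ[X]} (e : (X - 1) ^ 3 * (g * h) = S n)
    (hd : (red p (S n)).natDegree = n + 1) :
    (red p g).natDegree = g.natDegree ∧ (red p h).natDegree = h.natDegree ∧
      red p g ≠ 0 ∧ red p h ≠ 0 := by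
  have e1 := red_eq (p := p) e
  have h0 : red p (S n) ≠ 0 := by
    intro h
    rw [h] at hd
    simp at hd
  rw [← e1] at h0
  have ha : red p g ≠ 0 := fun h => h0 (by rw [h]; simp)
  have hb : red p h ≠ 0 := fun h => h0 (by rw [h]; simp)
  have hg : g ≠ 0 := by
    rintro rfl
    exact ha (by simp [red])
  have hh : h ≠ 0 := by
    rintro rfl
    exact hb (by simp [red])
  rw [← e1, natDegree_mul cube_ne (mul_ne_zero ha hb), natDegree_mul ha hb, nd_cube] at hd
  have h1 := deg_le n
  rw [← e, natDegree_mul cube_ne (mul_ne_zero hg hh), natDegree_mul hg hh, nd_cube] at h1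
  have h2 : (red p g).natDegree ≤ g.natDegree := natDegree_map_le
  have h3 : (red p h).natDegree ≤ h.natDegree := natDegree_map_le
  exact ⟨by omega, by omega, ha, hb⟩

/-- coprime factors of a `p`-th power -/
theorem core {p : ℕ} [Fact p.Prime] {a b T : (ZMod p)[X]} (hc : IsCoprime a b)
    (h : a * b = T ^ p) : p ∣ a.natDegree := by
  obtain ⟨d, hd⟩ := exists_associated_pow_of_mul_eq_pow' hc h
  have h1 : (d ^ p).natDegree = a.natDegree := natDegree_eq_of_degree_eq (degree_eq_degree_of_associated hd)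
  rw [← h1, natDegree_pow]
  exact dvd_mul_right _ _

theorem cop_or {p : ℕ} [Fact p.Prime] {a b : (ZMod p)[X]} (hc : IsCoprime a b) :
    IsCoprime (X - 1) a ∨ IsCoprime (X - 1) b := by
  have hirr : Irreducible (X - 1 : (ZMod p)[X]) := by
    rw [show (X - 1 : (ZMod p)[X]) = X - C 1 by rw [C_1]]
    exact irreducible_X_sub_C 1
  by_cases h : (X - 1 : (ZMod p)[X]) ∣ a
  · right
    rw [hirr.coprime_iff_not_dvd]
    intro h2
    exact hirr.not_isUnit (hc.isUnit_of_dvd' h h2)
  · left
    rwa [hirr.coprime_iff_not_dvd]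

theorem char_pow {p m : ℕ} [Fact p.Prime] (c : ZMod p) :
    (C c * (X ^ m - 1) : (ZMod p)[X]) ^ p = C c * (X ^ (p * m) - 1) := by
  rw [mul_pow, ← C_pow, ZMod.pow_card, sub_pow_char, one_pow, ← pow_mul, mul_comm m p]

/-- the degree of a factor -/
theorem core3 {p : ℕ} [Fact p.Prime] {a b T : (ZMod p)[X]} (hc : IsCoprime a b)
    (hx : IsCoprime (X - 1) a) (h : (X - 1) ^ 3 * (a * b) = T ^ p) (hb : b ≠ 0) :
    p ∣ a.natDegree ∧ p ∣ b.natDegree + 3 := by
  have h1 : IsCoprime a ((X - 1) ^ 3 * b) := IsCoprime.mul_right (hx.symm.pow_right) hc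
  have h2 : a * ((X - 1) ^ 3 * b) = T ^ p := by rw [← h]; ring
  refine ⟨core h1 h2, ?_⟩
  have h3 := core h1.symm (T := T) (by rw [← h]; ring)
  rwa [natDegree_mul cube_ne hb, nd_cube, add_comm] at h3

end Pool.Agent.L7h84.TN
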