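import Pool.Agent.L7h26.TN.Stm

/-!
# Project TN, part EQN (helper84)
-/

set_option autoImplicit false

namespace Pool.Agent.L7h84.TN

open Pool.Agent.L7h26.TN

theorem Q_dvd (N : ℕ) : Q N ∣ N := by
  unfold Q
  exact (Finset.prod_dvd_prod_of_subset _ _ _ (Finset.filter_subset _ _)).trans
    (Nat.prod_primeFactors_dvd N)

theorem Q_r (N : ℕ) : Q N * r N = N := by
  unfold r
  exact Nat.mul_div_cancel' (Q_dvd N)

theorem s_EQN : S_EQN := by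
  intro n d d' hn hd hd' hdd hdvd
  obtain ⟨k, rfl⟩ : ∃ k, n = k + 4 := ⟨n - 4, by omega⟩
  obtain ⟨A, hA⟩ : ∃ A, A = Q (k + 4 + 1) := ⟨_, rfl⟩
  obtain ⟨B, hB⟩ : ∃ B, B = Q (k + 4) := ⟨_, rfl⟩
  obtain ⟨C, hC⟩ : ∃ C, C = Q (k + 4 - 1) := ⟨_, rfl⟩
  obtain ⟨a, ha⟩ : ∃ a, a = r (k + 4 + 1) := ⟨_, rfl⟩
  obtain ⟨b, hb⟩ : ∃ b, b = r (k + 4) := ⟨_, rfl⟩
  obtain ⟨c, hc⟩ : ∃ c, c = r (k + 4 - 1) := ⟨_, rfl⟩
  have h1 : A * a = k + 5 := by rw [hA, ha, Q_r]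
  have h2 : B * b = k + 4 := by rw [hB, hb, Q_r]
  have h3 : C * c = k + 3 := by rw [hC, hc, Q_r]; omega
  rw [← hA, ← hB, ← hC] at hdvd
  rw [← ha, ← hb, ← hc]
  obtain ⟨T, hT⟩ := hdvd
  obtain ⟨s, hs⟩ : ∃ s, s = a ^ 2 * b * c := ⟨_, rfl⟩
  obtain ⟨q, hq⟩ : ∃ q, q = A ^ 2 * B * C := ⟨_, rfl⟩
  rw [← hs]
  rw [← hq] at hT
  have hsq : s * q = (k + 5) ^ 2 * (k + 4) * (k + 3) := by
    rw [hs, hq, ← h1, ← h2, ← h3]
    ring
  have hT0 : 0 < T := by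
    rcases Nat.eq_zero_or_pos T with h | h
    · exfalso
      rw [h, mul_zero] at hT
      have : 0 < d * (d + 3) * (d' * (d' + 3)) := by positivity
      omega
    · exact h
  have hq0 : 0 < q := by
    rcases Nat.eq_zero_or_pos q with h | h
    · exfalso
      rw [h, mul_zero] at hsq
      have : 0 < (k + 5) ^ 2 * (k + 4) * (k + 3) := by positivity
      omega
    · exact h
  have hk : d + d' = k + 2 := by omega
  -- the product
  obtain ⟨P, hP⟩ : ∃ P, P = d * d' := ⟨_, rfl⟩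
  have hPP : d * (d + 3) * (d' * (d' + 3)) = P * (P + 3 * (k + 5)) := by
    have : k = d + d' - 2 := by omega
    have h5 : 3 * (k + 5) = 3 * (d + d') + 9 := by omega
    rw [h5, hP]
    ring
  have hP4 : 4 * P ≤ (k + 2) ^ 2 := by
    rw [← hk, hP]
    nlinarith [sq_nonneg ((d : ℤ) - d'), Nat.zero_le (d * d'),
      (by
        have : (0 : ℤ) ≤ ((d : ℤ) - d') ^ 2 := sq_nonneg _
        zify
        nlinarith : 4 * (d * d') ≤ (d + d') ^ 2)]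
  have hTs : T < s := by
    have h6 : q * T < q * s := by
      rw [← hT, hPP, mul_comm q s, hsq]
      have h7 : 16 * (P * (P + 3 * (k + 5))) ≤ (k + 2) ^ 2 * ((k + 2) ^ 2 + 12 * (k + 5)) := by
        nlinarith
      nlinarith
    exact lt_of_mul_lt_mul_left h6 (Nat.zero_le q)
  have hmain : T * ((k + 5) ^ 2 * (k + 4) * (k + 3)) = s * (P * (P + 3 * (k + 5))) := by
    rw [← hsq, ← hPP, hT]
    ring
  have hsqr : (s * (2 * P + 3 * (k + 5))) ^ 2 =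
      (k + 5) ^ 2 * (4 * s * T * ((k + 4) * (k + 3)) + 9 * s ^ 2) := by
    have e1 : (s * (2 * P + 3 * (k + 5))) ^ 2 =
        4 * s * (s * (P * (P + 3 * (k + 5)))) + 9 * s ^ 2 * (k + 5) ^ 2 := by ring
    rw [e1, ← hmain]
    ring
  have hdv : (k + 5) ∣ s * (2 * P + 3 * (k + 5)) := by
    rw [← Nat.pow_dvd_pow_iff (n := 2) (by norm_num), hsqr]
    exact dvd_mul_right _ _
  obtain ⟨y, hy⟩ := hdv
  refine ⟨T, y, hT0, hTs, ?_⟩
  have hy2 : y ^ 2 = 4 * s * T * ((k + 4) * (k + 3)) + 9 * s ^ 2 := by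
    rw [hy, mul_pow] at hsqr
    exact Nat.eq_of_mul_eq_mul_left (by positivity) hsqr
  rw [hy2]
  have e2 : 2 * (k + 4) - 1 = 2 * k + 7 := by omega
  obtain ⟨u, hu⟩ : ∃ u, 9 * s = T + u := ⟨9 * s - T, by omega⟩
  have e3 : 9 * s - T = u := by omega
  rw [e2, e3]
  have e4 : 9 * s ^ 2 = s * (T + u) := by rw [← hu]; ring
  rw [e4]
  ring

end Pool.Agent.L7h84.TN
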