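import Pool.Agent.L7h84.TN.Base

/-!
# Project TN, parts LOC1 and LOC0 (helper84)
-/

set_option autoImplicit false

namespace Pool.Agent.L7h84.TN

open Polynomial
open Pool.Agent.L7h26.TN

theorem red_S (p n : ℕ) : red p (S n) =
    C ((n : ZMod p) - 1) * (X ^ (n + 1) - 1) - C ((n : ZMod p) + 1) * (X ^ n - X) := by
  unfold red S
  simp

theorem two_ne {p : ℕ} [Fact p.Prime] (hp2 : p ≠ 2) : (2 : ZMod p) ≠ 0 := by
  have h : ((2 : ℕ) : ZMod p) ≠ 0 := by
    rw [Ne, ZMod.natCast_eq_zero_iff]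
    intro h
    exact hp2 ((Nat.prime_dvd_prime_iff_eq Fact.out Nat.prime_two).1 h)
  exact_mod_cast h

theorem nd_T {p m : ℕ} [Fact p.Prime] {c : ZMod p} (hc : c ≠ 0) :
    (C c * (X ^ m - 1) : (ZMod p)[X]).natDegree = m := by
  rw [natDegree_C_mul hc, show (X ^ m - 1 : (ZMod p)[X]) = X ^ m - C 1 by rw [C_1],
    natDegree_X_pow_sub_C]

theorem s_LOC1 : S_LOC1 := by
  intro p n hp hp2 hn hn4 hex g h e hc
  haveI : Fact p.Prime := ⟨hp⟩
  obtain ⟨⟨m, hm⟩, hnd⟩ := hex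
  have hn1 : (n : ZMod p) + 1 = 0 := by
    have : ((n + 1 : ℕ) : ZMod p) = 0 := by
      rw [ZMod.natCast_eq_zero_iff]
      exact ⟨m, hm⟩
    exact_mod_cast this
  have hn2 : (n : ZMod p) - 1 = -2 := by linear_combination hn1
  have hS : red p (S n) = (C (-2) * (X ^ m - 1)) ^ p := by
    rw [red_S, char_pow, hn1, hn2, hm]
    simp
  have hc2 : (-2 : ZMod p) ≠ 0 := neg_ne_zero.2 (two_ne hp2)
  have hd : (red p (S n)).natDegree = n + 1 := by
    rw [hS, natDegree_pow, nd_T hc2, hm]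
  obtain ⟨h1, h2, h3, h4⟩ := deg_red e hd
  have e1 := red_eq (p := p) e
  rw [hS] at e1
  rcases cop_or hc with h5 | h5
  · obtain ⟨h6, h7⟩ := core3 hc h5 e1 h4
    rw [h1] at h6
    rw [h2] at h7
    exact Or.inl ⟨h6, h7⟩
  · obtain ⟨h6, h7⟩ := core3 hc.symm h5 (by rw [mul_comm (red p h)]; exact e1) h3
    rw [h2] at h6
    rw [h1] at h7
    exact Or.inr ⟨h7, h6⟩

/-- one half of LOC0 -/
theorem half0 {p m : ℕ} [Fact p.Prime] {a b : (ZMod p)[X]} (hb : b ≠ 0)
    (hc : IsCoprime a b) (hx : (X + 1 : (ZMod p)[X]) ∣ a)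
    (h : (X - 1) ^ 3 * (a * b) = (X + 1) * (C (-1) * (X ^ m - 1)) ^ p) :
    p ∣ b.natDegree ∨ p ∣ b.natDegree + 3 := by
  obtain ⟨a2, rfl⟩ := hx
  have hne : (X + 1 : (ZMod p)[X]) ≠ 0 := by
    rw [show (X + 1 : (ZMod p)[X]) = X + C 1 by rw [C_1]]
    exact X_add_C_ne_zero 1
  have h2 : (X - 1) ^ 3 * (a2 * b) = (C (-1) * (X ^ m - 1)) ^ p := by
    refine mul_left_cancel₀ hne ?_
    rw [← h]
    ring
  have hc2 : IsCoprime a2 b := hc.of_mul_left_right
  rcases cop_or hc2 with h5 | h5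
  · right
    exact (core3 hc2 h5 h2 hb).2
  · left
    by_cases ha2 : a2 = 0
    · have h3 : IsUnit b := by
        rw [ha2] at hc2
        exact isCoprime_zero_left.1 hc2
      rw [natDegree_eq_zero_of_isUnit h3]
      exact dvd_zero p
    · exact (core3 hc2.symm h5 (by rw [mul_comm b]; exact h2) ha2).1

theorem s_LOC0 : S_LOC0 := by
  intro p n hp hp2 hn hn4 hex g h e hc
  haveI : Fact p.Prime := ⟨hp⟩
  obtain ⟨⟨m, hm⟩, hnd⟩ := hex
  have hn1 : (n : ZMod p) = 0 := by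
    rw [ZMod.natCast_eq_zero_iff]
    exact ⟨m, hm⟩
  have hS : red p (S n) = (X + 1) * (C (-1) * (X ^ m - 1)) ^ p := by
    rw [red_S, char_pow, hn1, ← hm]
    simp only [zero_sub, zero_add, C_neg, C_1]
    ring
  have hc2 : (-1 : ZMod p) ≠ 0 := neg_ne_zero.2 one_ne_zero
  have hne : (X + 1 : (ZMod p)[X]) ≠ 0 := by
    rw [show (X + 1 : (ZMod p)[X]) = X + C 1 by rw [C_1]]
    exact X_add_C_ne_zero 1
  have hm0 : m ≠ 0 := by
    rintro rfl
    omega
  have hTne : (C (-1) * (X ^ m - 1) : (ZMod p)[X]) ≠ 0 := by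
    intro h0
    have := nd_T (p := p) (m := m) hc2
    rw [h0] at this
    simp at this
    omega
  have hd : (red p (S n)).natDegree = n + 1 := by
    rw [hS, natDegree_mul hne (pow_ne_zero _ hTne), natDegree_pow, nd_T hc2, ← hm,
      show (X + 1 : (ZMod p)[X]) = X + C 1 by rw [C_1], natDegree_X_add_C, add_comm]
  obtain ⟨h1, h2, h3, h4⟩ := deg_red e hd
  have e1 := red_eq (p := p) e
  rw [hS] at e1
  have hpr : Prime (X + 1 : (ZMod p)[X]) := by
    rw [show (X + 1 : (ZMod p)[X]) = X - C (-1) by simp]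
    exact prime_X_sub_C (-1)
  have h5 : (X + 1 : (ZMod p)[X]) ∣ red p g * red p h := by
    have h6 : (X + 1 : (ZMod p)[X]) ∣ (X - 1) ^ 3 * (red p g * red p h) := ⟨_, e1⟩
    rcases hpr.dvd_or_dvd h6 with h7 | h7
    · exfalso
      have h8 := hpr.dvd_of_dvd_pow h7
      rw [show (X + 1 : (ZMod p)[X]) = X - C (-1) by simp, dvd_iff_isRoot] at h8
      simp only [IsRoot.def, eval_sub, eval_X, eval_one] at h8
      exact two_ne hp2 (by linear_combination -h8)
    · exact h7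
  rcases hpr.dvd_or_dvd h5 with h6 | h6
  · right
    rcases half0 h4 hc h6 e1 with h7 | h7
    · rw [h2] at h7
      exact h7.mul_right _
    · rw [h2] at h7
      exact h7.mul_left _
  · left
    rcases half0 h3 hc.symm h6 (by rw [mul_comm (red p h)]; exact e1) with h7 | h7
    · rw [h1] at h7
      exact h7.mul_right _
    · rw [h1] at h7
      exact h7.mul_left _

end Pool.Agent.L7h84.TN
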